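import Mathlib
import Pool.Agent.W188.MZ.Stm

/-!
Project MZ, parts LIP (Lipschitz bound from the local inequality) and SPC (spacing of the nodes).
-/

namespace Pool.Agent.W721.MZ

open Complex MeasureTheory Set Filter Topology
open Pool.Agent.W188.QS Pool.Agent.W188.GP Pool.Agent.W188.MZ

theorem cp_im (t : ℝ) : (cp t).im = t := by
  simp [cp]

theorem cp_sub (t t' : ℝ) : ‖cp t - cp t'‖ = |t - t'| := by
  have : cp t - cp t' = ((t - t' : ℝ) : ℂ) * I := by
    apply Complex.ext <;> simp [cp]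
  rw [this, norm_mul, Complex.norm_I, mul_one, Complex.norm_real, Real.norm_eq_abs]

theorem mz_lip (h : Pool.Agent.W188.MZ.StLocC) : Pool.Agent.W188.MZ.StLip := by
  intro m hm
  obtain ⟨C, T₀, hC, hT₀⟩ := h m hm
  refine ⟨C, max T₀ (max 100 (Real.exp 1)), hC, ?_⟩
  intro T γ t₀ t hT h1 h2 ht
  have hTT : T₀ ≤ T := (le_max_left _ _).trans hT
  have hT100 : 100 ≤ T := (le_max_left _ _).trans ((le_max_right _ _).trans hT)
  have hTe : Real.exp 1 ≤ T := (le_max_right _ _).trans ((le_max_right _ _).trans hT)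
  have hT0 : 0 < T := by linarith
  have hL1 : 1 ≤ Real.log T := by
    rw [Real.le_log_iff_exp_le hT0]
    exact hTe
  set L := Real.log T with hLdef
  have hL0 : 0 < L := by linarith
  set B := C * S2 m γ T t₀ + T ^ (-(1 / 2 : ℝ)) with hBdef
  have hbd : ∀ s : ℂ, ‖s - cp t₀‖ ≤ 16 / L → ‖riemannZeta s‖ ≤ B := hT₀ T γ t₀ hTT h1 h2
  have hB0 : 0 ≤ B := (norm_nonneg _).trans (hbd (cp t₀) (by
    rw [sub_self, norm_zero]; positivity))
  have h16 : 16 / L ≤ 16 := div_le_self (by norm_num) hL1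
  have hdiff : ∀ s : ℂ, ‖s - cp t₀‖ ≤ 16 / L → DifferentiableAt ℂ riemannZeta s := by
    intro s hs
    apply differentiableAt_riemannZeta
    intro h1s
    have h3 : |(s - cp t₀).im| ≤ 16 := (Complex.abs_im_le_norm _).trans (hs.trans h16)
    rw [Complex.sub_im, cp_im, h1s, Complex.one_im, zero_sub, abs_neg] at h3
    have := (le_abs_self t₀).trans h3
    linarith
  have h8 : (0 : ℝ) < 8 / L := by positivity
  have hsum : 8 / L + 8 / L = 16 / L := by ring
  have hder : ∀ s ∈ Metric.closedBall (cp t₀) (8 / L), ‖deriv riemannZeta s‖ ≤ B * L / 8 := by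
    intro s hs
    rw [mem_closedBall_iff_norm] at hs
    have hin : ∀ z : ℂ, ‖z - s‖ ≤ 8 / L → ‖z - cp t₀‖ ≤ 16 / L := by
      intro z hz
      calc ‖z - cp t₀‖ = ‖(z - s) + (s - cp t₀)‖ := by ring_nf
        _ ≤ ‖z - s‖ + ‖s - cp t₀‖ := norm_add_le _ _
        _ ≤ 8 / L + 8 / L := add_le_add hz hs
        _ = 16 / L := hsum
    have h4 := Complex.norm_deriv_le_of_forall_mem_sphere_norm_le (c := s) (R := 8 / L) (C := B)
      (f := riemannZeta) h8 (by
        apply DifferentiableOn.diffContOnCl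
        intro z hz
        apply (hdiff z (hin z _)).differentiableWithinAt
        rw [closure_ball _ h8.ne', mem_closedBall_iff_norm] at hz
        exact hz) (by
        intro z hz
        apply hbd z (hin z _)
        rw [mem_sphere_iff_norm] at hz
        exact hz.le)
    refine h4.trans (le_of_eq ?_)
    field_simp
  have hmem0 : cp t₀ ∈ Metric.closedBall (cp t₀) (8 / L) := Metric.mem_closedBall_self h8.le
  have hmem : cp t ∈ Metric.closedBall (cp t₀) (8 / L) := by
    rw [mem_closedBall_iff_norm, cp_sub]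
    exact ht
  have h5 := Convex.norm_image_sub_le_of_norm_deriv_le (f := riemannZeta) (C := B * L / 8)
    (s := Metric.closedBall (cp t₀) (8 / L)) (x := cp t₀) (y := cp t)
    (fun s hs => hdiff s (by
      rw [mem_closedBall_iff_norm] at hs
      exact hs.trans (by rw [← hsum]; linarith))) hder (convex_closedBall _ _) hmem0 hmem
  rw [cp_sub] at h5
  refine h5.trans ?_
  have h6 : 0 ≤ L * |t - t₀| * B := by positivity
  calc B * L / 8 * |t - t₀| = (L * |t - t₀| * B) / 8 := by ring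
    _ ≤ L * |t - t₀| * B := by linarith

theorem summ : Summable (fun j : ℤ => 1 / (1 + |(j : ℝ)|) ^ 2) := by
  have h0 : Summable (fun n : ℕ => 1 / (1 + (n : ℝ)) ^ 2) := by
    have := (summable_nat_add_iff 1).2 (Real.summable_one_div_nat_pow.2 (by norm_num : 1 < 2))
    refine this.congr ?_
    intro n
    push_cast
    rw [add_comm]
  apply Summable.of_nat_of_neg
  · refine h0.congr ?_
    intro n
    simp
  · refine h0.congr ?_
    intro n
    simp

theorem mz_spc (h1 : Pool.Agent.W188.GP.StTau) : Pool.Agent.W188.MZ.StSpc := by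
  obtain ⟨hvmono, -, -, -, hder, htv, hvt, htmono, -, -, -, hlam, hnd⟩ := h1
  refine ⟨(∑' j : ℤ, 1 / (1 + |(j : ℝ)|) ^ 2) + 1, max 1 (Real.exp 5), ?_, ?_⟩
  · have : 0 ≤ ∑' j : ℤ, 1 / (1 + |(j : ℝ)|) ^ 2 := tsum_nonneg (fun j => by positivity)
    linarith
  intro T γ a b x hT ha hb
  have hT1 : 1 ≤ T := (le_max_left _ _).trans hT
  have hTe : Real.exp 5 ≤ T := (le_max_right _ _).trans hT
  have hT0 : 0 < T := by linarith
  have hL5 : 5 ≤ Real.log T := by
    rw [Real.le_log_iff_exp_le hT0]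
    exact hTe
  set L := Real.log T with hLdef
  have hL0 : 0 < L := by linarith
  have hlog64 : Real.log (64 * T) ≤ L + 5 := by
    rw [Real.log_mul (by norm_num) hT0.ne']
    have : Real.log 64 = 6 * Real.log 2 := by
      rw [show (64 : ℝ) = 2 ^ 6 by norm_num, Real.log_pow]
      norm_num
    have h2 := Real.log_two_lt_d9
    rw [this]
    linarith
  -- spacing
  have hsp : ∀ n ∈ nd γ a b, ∀ n' ∈ nd γ a b, n < n' →
      3 * ((n' : ℝ) - n) ≤ L * (tau (n' + γ) - tau (n + γ)) := by
    intro n hn n' hn' hlt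
    rw [hnd] at hn hn'
    have hlt' : (n : ℝ) + γ < n' + γ := by
      have : (n : ℝ) < n' := by exact_mod_cast hlt
      linarith
    have ht : tau (n + γ) < tau (n' + γ) := htmono hlt'
    obtain ⟨c, hc, hslope⟩ := exists_hasDerivAt_eq_slope vv (fun t => lamE t / (2 * Real.pi)) ht
      (fun y hy => (hder y).continuousAt.continuousWithinAt) (fun y hy => hder y)
    rw [hvt, hvt] at hslope
    have hd : 0 < tau (n' + γ) - tau (n + γ) := by linarith
    rw [eq_div_iff hd.ne'] at hslope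
    have hc200 : 200 ≤ c := by linarith [hc.1, hn.1]
    have hc64 : c ≤ 64 * T := by linarith [hc.2, hn'.2]
    have hlc : lamE c ≤ L + 5 := by
      refine ((hlam c (by linarith)).2).trans ?_
      exact (Real.log_le_log (by linarith) hc64).trans hlog64
    have hpi : 3 < Real.pi := Real.pi_gt_three
    have h6 : 3 * (lamE c / (2 * Real.pi)) ≤ L := by
      rw [mul_div_assoc', div_le_iff₀ (by positivity)]
      nlinarith
    have h7 : (n' : ℝ) - n = lamE c / (2 * Real.pi) * (tau (n' + γ) - tau (n + γ)) := by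
      rw [hslope]; ring
    rw [h7]
    calc 3 * (lamE c / (2 * Real.pi) * (tau (n' + γ) - tau (n + γ)))
        = (3 * (lamE c / (2 * Real.pi))) * (tau (n' + γ) - tau (n + γ)) := by ring
      _ ≤ L * (tau (n' + γ) - tau (n + γ)) := mul_le_mul_of_nonneg_right h6 hd.le
  have hsp2 : ∀ n ∈ nd γ a b, ∀ n' ∈ nd γ a b,
      3 * |(n : ℝ) - n'| ≤ L * |tau (n + γ) - tau (n' + γ)| := by
    intro n hn n' hn'
    rcases lt_trichotomy n n' with h | h | h
    · have h3 := hsp n hn n' hn' h
      rw [abs_sub_comm, abs_sub_comm (tau (n + γ))]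
      have h4 : (n : ℝ) < n' := by exact_mod_cast h
      have h5 : tau (n + γ) < tau (n' + γ) := htmono (by linarith)
      rw [abs_of_pos (by linarith), abs_of_pos (by linarith)]
      exact h3
    · subst h
      simp
    · have h3 := hsp n' hn' n hn h
      have h4 : (n' : ℝ) < n := by exact_mod_cast h
      have h5 : tau (n' + γ) < tau (n + γ) := htmono (by linarith)
      rw [abs_of_pos (by linarith), abs_of_pos (by linarith)]
      exact h3
  rcases (nd γ a b).eq_empty_or_nonempty with he | hne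
  · rw [he, Finset.sum_empty]
    have : 0 ≤ ∑' j : ℤ, 1 / (1 + |(j : ℝ)|) ^ 2 := tsum_nonneg (fun j => by positivity)
    linarith
  obtain ⟨n₀, hn₀, hmin⟩ := Finset.exists_min_image (nd γ a b) (fun n => |tau (n + γ) - x|) hne
  have hterm : ∀ n ∈ nd γ a b, 1 / (1 + L * |tau (n + γ) - x|) ^ 2 ≤
      (fun j : ℤ => 1 / (1 + |(j : ℝ)|) ^ 2) (n - n₀) := by
    intro n hn
    have h2 := hmin n hn
    have h3 := hsp2 n hn n₀ hn₀
    have h4 : |tau (n + γ) - tau (n₀ + γ)| ≤ |tau (n + γ) - x| + |tau (n₀ + γ) - x| := by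
      have : tau (n + γ) - tau (n₀ + γ) = (tau (n + γ) - x) - (tau (n₀ + γ) - x) := by ring
      rw [this]
      exact abs_sub _ _
    have h5 : |(n : ℝ) - n₀| ≤ L * |tau (n + γ) - x| := by
      have h6 : L * |tau (n + γ) - tau (n₀ + γ)| ≤ L * (2 * |tau (n + γ) - x|) :=
        mul_le_mul_of_nonneg_left (by linarith) hL0.le
      have h7 : 0 ≤ |(n : ℝ) - n₀| := abs_nonneg _
      linarith
    show 1 / (1 + L * |tau (n + γ) - x|) ^ 2 ≤ 1 / (1 + |((n - n₀ : ℤ) : ℝ)|) ^ 2
    push_cast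
    apply one_div_le_one_div_of_le
    · positivity
    · apply pow_le_pow_left₀ (by positivity)
      linarith
  refine (Finset.sum_le_sum hterm).trans ?_
  have hs2 : Summable (fun n : ℤ => (fun j : ℤ => 1 / (1 + |(j : ℝ)|) ^ 2) (n - n₀)) :=
    (Equiv.subRight n₀).summable_iff.2 summ
  have h8 := hs2.sum_le_tsum (nd γ a b) (fun i _ => by positivity)
  have h9 : ∑' n : ℤ, (fun j : ℤ => 1 / (1 + |(j : ℝ)|) ^ 2) (n - n₀)
      = ∑' j : ℤ, 1 / (1 + |(j : ℝ)|) ^ 2 :=
    (Equiv.subRight n₀).tsum_eq (fun j : ℤ => 1 / (1 + |(j : ℝ)|) ^ 2)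
  rw [h9] at h8
  linarith

end Pool.Agent.W721.MZ
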